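import Mathlib

/-!
# Dense subgroups of locally compact groups without small normal subgroups

(helper31) Let `G` be a Hausdorff group and `W` a compact set which contains no nontrivial normal
subgroup of `G`, and let `i : S → G` be a homomorphism of topological groups with dense image, not
assumed to be continuous, such that the preimage of `W` is a neighbourhood of `1`. Then `i` is
continuous.
-/

set_option autoImplicit false

open Topology Filter Set

namespace Pool.Agent.Q31.MG

section dense

variable {G S : Type*} [Group G] [TopologicalSpace G] [IsTopologicalGroup G] [Group S]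
  [TopologicalSpace S] [IsTopologicalGroup S]

/-- the intersection of the closures of the images of the neighbourhoods of `1` -/
def lim (i : S →* G) : Subgroup G where
  carrier := {x | ∀ O ∈ 𝓝 (1 : S), x ∈ closure (i '' O)}
  one_mem' := fun O hO => subset_closure ⟨1, mem_of_mem_nhds hO, map_one i⟩
  mul_mem' := by
    intro x y hx hy O hO
    obtain ⟨V, hV, hVO⟩ := exists_nhds_one_split hO
    refine map_mem_closure₂ continuous_mul (hx V hV) (hy V hV) ?_
    rintro _ ⟨a, ha, rfl⟩ _ ⟨b, hb, rfl⟩
    exact ⟨a * b, hVO a ha b hb, map_mul i a b⟩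
  inv_mem' := by
    intro x hx O hO
    have h : (fun s : S => s⁻¹) ⁻¹' O ∈ 𝓝 (1 : S) := by
      have : Tendsto (fun s : S => s⁻¹) (𝓝 1) (𝓝 1) := by
        have h := (continuous_inv (G := S)).tendsto 1
        rwa [inv_one] at h
      exact this hO
    refine map_mem_closure continuous_inv (hx _ h) ?_
    rintro _ ⟨a, ha, rfl⟩
    exact ⟨a⁻¹, ha, map_inv i a⟩

lemma mem_lim {i : S →* G} {x : G} : x ∈ lim i ↔ ∀ O ∈ 𝓝 (1 : S), x ∈ closure (i '' O) := Iff.rfl

lemma lim_closed (i : S →* G) : IsClosed (lim i : Set G) := by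
  have : (lim i : Set G) = ⋂ O ∈ 𝓝 (1 : S), closure (i '' O) := by
    ext x
    simp only [mem_iInter]
    exact mem_lim
  rw [this]
  exact isClosed_biInter fun O _ => isClosed_closure

lemma lim_normal (i : S →* G) (hi : DenseRange i) : (lim i).Normal := by
  refine ⟨fun n hn g => ?_⟩
  have hc : IsClosed {g : G | g * n * g⁻¹ ∈ lim i} := by
    have : Continuous fun g : G => g * n * g⁻¹ := by fun_prop
    exact (lim_closed i).preimage this
  have hsub : range i ⊆ {g : G | g * n * g⁻¹ ∈ lim i} := by
    rintro _ ⟨h, rfl⟩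
    intro O hO
    have h1 : (fun s : S => h * s * h⁻¹) ⁻¹' O ∈ 𝓝 (1 : S) := by
      have hct : Continuous fun s : S => h * s * h⁻¹ := by fun_prop
      have h2 := hct.tendsto 1
      rw [mul_one, mul_inv_cancel] at h2
      exact h2 hO
    have h3 : Continuous fun g : G => i h * g * (i h)⁻¹ := by fun_prop
    refine map_mem_closure (f := fun g : G => i h * g * (i h)⁻¹) h3 (hn _ h1) ?_
    rintro _ ⟨a, ha, rfl⟩
    exact ⟨h * a * h⁻¹, ha, by rw [map_mul, map_mul, map_inv]⟩
  have h4 := hc.closure_subset_iff.2 hsub
  rw [hi.closure_range] at h4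
  exact h4 (mem_univ g)

/-- A homomorphism with dense image is continuous if the preimage of some compact set without
nontrivial normal subgroups is a neighbourhood of `1`. -/
theorem tendsto_of_small [T2Space G] (i : S →* G) (hi : DenseRange i) {W : Set G}
    (hWc : IsCompact W) (hN : ∀ N : Subgroup G, N.Normal → (N : Set G) ⊆ W → N = ⊥)
    (hV : i ⁻¹' W ∈ 𝓝 (1 : S)) : Tendsto i (𝓝 1) (𝓝 1) := by
  have hbot : lim i = ⊥ := by
    refine hN _ (lim_normal i hi) ?_
    intro x hx
    have h1 := hx _ hV
    have h2 : closure (i '' (i ⁻¹' W)) ⊆ W :=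
      (closure_mono (image_preimage_subset _ _)).trans hWc.isClosed.closure_eq.le
    exact h2 h1
  by_contra hcon
  rw [tendsto_def] at hcon
  push Not at hcon
  obtain ⟨U, hU, hU'⟩ := hcon
  have hUo : i ⁻¹' interior U ∉ 𝓝 (1 : S) := fun h =>
    hU' (mem_of_superset h (preimage_mono interior_subset))
  have hne : (map i (𝓝 1) ⊓ 𝓟 (interior U)ᶜ).NeBot := by
    rw [neBot_iff]
    intro h
    rw [inf_principal_eq_bot, compl_compl] at h
    exact hUo h
  have hle : map i (𝓝 1) ⊓ 𝓟 (interior U)ᶜ ≤ 𝓟 W := by
    refine inf_le_left.trans ?_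
    rw [le_principal_iff]
    exact hV
  obtain ⟨x, -, hx⟩ := hWc hle
  have hxN : x ∈ lim i := by
    intro O hO
    rw [mem_closure_iff_clusterPt]
    refine hx.mono (inf_le_left.trans ?_)
    rw [le_principal_iff]
    exact image_mem_map hO
  rw [hbot, Subgroup.mem_bot] at hxN
  have hxU : x ∈ (interior U)ᶜ := by
    have hcl : IsClosed (interior U)ᶜ := isOpen_interior.isClosed_compl
    rw [← hcl.closure_eq, mem_closure_iff_clusterPt]
    exact hx.mono inf_le_right
  rw [hxN] at hxU
  exact hxU (mem_interior_iff_mem_nhds.2 hU)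

end dense

/-- a dense subgroup is locally minimal -/
theorem dense_min {G : Type*} [Group G] [TopologicalSpace G] [IsTopologicalGroup G] [T2Space G]
    {W : Set G} (hWc : IsCompact W)
    (hN : ∀ N : Subgroup G, N.Normal → (N : Set G) ⊆ W → N = ⊥) (H : Subgroup G)
    (hH : Dense (H : Set G)) (σ : TopologicalSpace H) (hσ : @IsTopologicalGroup H σ _)
    (hle : (instTopologicalSpaceSubtype : TopologicalSpace H) ≤ σ)
    (hV : (Subtype.val ⁻¹' W : Set H) ∈ @nhds H σ 1) : σ = instTopologicalSpaceSubtype := by
  have hd : DenseRange (H.subtype : H → G) := by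
    have : range (H.subtype : H → G) = (H : Set G) := by
      ext x
      simp
    rw [DenseRange, this]
    exact hH
  have h1 : Tendsto (H.subtype : H → G) (@nhds H σ 1) (𝓝 1) :=
    @tendsto_of_small G H _ _ _ _ σ hσ _ H.subtype hd W hWc hN hV
  have h2 : @nhds H σ 1 ≤ @nhds H instTopologicalSpaceSubtype 1 := by
    have e : @nhds H instTopologicalSpaceSubtype 1 = comap (Subtype.val : H → G) (𝓝 1) := by
      have := nhds_induced (Subtype.val : H → G) (1 : H)
      exact this
    rw [e]
    exact tendsto_iff_comap.1 h1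
  exact IsTopologicalGroup.ext hσ inferInstance (le_antisymm h2 (nhds_mono hle))

end Pool.Agent.Q31.MG
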