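import Pool.Agent.Q31.MG.Dense

/-!
# The group `ℝ × (ℚ_p ⋊ ℤ)`

(helper31) It is locally compact, has no small normal subgroups, is not totally disconnected and
contains a copy of `ℤ_p`.
-/

set_option autoImplicit false

open Topology Filter Set

noncomputable section

namespace Pool.Agent.Q31.MG

section ex

variable (p : ℕ) [hp : Fact p.Prime]

/-- the group `ℝ × (ℚ_p ⋊ ℤ)`, where `k ∈ ℤ` acts on `ℚ_p` by multiplication with `p ^ k` -/
structure GG where
  /-- the real coordinate -/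
  x : ℝ
  /-- the `p`-adic coordinate -/
  b : ℚ_[p]
  /-- the exponent -/
  k : ℤ

variable {p}

@[ext] theorem GG.ext' {g h : GG p} (h1 : g.x = h.x) (h2 : g.b = h.b) (h3 : g.k = h.k) : g = h := by
  cases g; cases h; simp_all

/-- the coordinates -/
def GG.eqv : GG p ≃ ℝ × ℚ_[p] × ℤ where
  toFun g := (g.x, g.b, g.k)
  invFun t := ⟨t.1, t.2.1, t.2.2⟩
  left_inv _ := rfl
  right_inv _ := rfl

instance : TopologicalSpace (GG p) := TopologicalSpace.induced GG.eqv inferInstance

/-- the coordinates -/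
def GG.homeo : GG p ≃ₜ ℝ × ℚ_[p] × ℤ where
  toEquiv := GG.eqv
  continuous_toFun := continuous_induced_dom
  continuous_invFun := by
    rw [continuous_induced_rng]
    exact continuous_id

lemma cont_x : Continuous (GG.x : GG p → ℝ) := continuous_fst.comp GG.homeo.continuous

lemma cont_b : Continuous (GG.b : GG p → ℚ_[p]) :=
  continuous_fst.comp (continuous_snd.comp GG.homeo.continuous)

lemma cont_k : Continuous (GG.k : GG p → ℤ) :=
  continuous_snd.comp (continuous_snd.comp GG.homeo.continuous)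

lemma cont_mk {X : Type*} [TopologicalSpace X] {f : X → ℝ} {g : X → ℚ_[p]} {h : X → ℤ}
    (hf : Continuous f) (hg : Continuous g) (hh : Continuous h) :
    Continuous fun t => (⟨f t, g t, h t⟩ : GG p) :=
  GG.homeo.symm.continuous.comp (hf.prodMk (hg.prodMk hh))

instance : Mul (GG p) := ⟨fun g h => ⟨g.x + h.x, g.b + (p : ℚ_[p]) ^ g.k * h.b, g.k + h.k⟩⟩

instance : One (GG p) := ⟨⟨0, 0, 0⟩⟩

instance : Inv (GG p) := ⟨fun g => ⟨-g.x, -((p : ℚ_[p]) ^ (-g.k) * g.b), -g.k⟩⟩

@[simp] lemma mul_x (g h : GG p) : (g * h).x = g.x + h.x := rfl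

@[simp] lemma mul_b (g h : GG p) : (g * h).b = g.b + (p : ℚ_[p]) ^ g.k * h.b := rfl

@[simp] lemma mul_k (g h : GG p) : (g * h).k = g.k + h.k := rfl

@[simp] lemma one_x : (1 : GG p).x = 0 := rfl

@[simp] lemma one_b : (1 : GG p).b = 0 := rfl

@[simp] lemma one_k : (1 : GG p).k = 0 := rfl

@[simp] lemma inv_x (g : GG p) : (g⁻¹).x = -g.x := rfl

@[simp] lemma inv_b (g : GG p) : (g⁻¹).b = -((p : ℚ_[p]) ^ (-g.k) * g.b) := rfl

@[simp] lemma inv_k (g : GG p) : (g⁻¹).k = -g.k := rfl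

lemma p_ne : (p : ℚ_[p]) ≠ 0 := by
  exact_mod_cast hp.out.ne_zero

instance : Group (GG p) := Group.ofLeftAxioms
  (fun a b c => by
    ext
    · simp [add_assoc]
    · simp only [mul_b, mul_k]
      rw [zpow_add₀ p_ne]
      ring
    · simp [add_assoc])
  (fun a => by ext <;> simp)
  (fun a => by ext <;> simp)

instance : IsTopologicalGroup (GG p) where
  continuous_mul := by
    have h1 : Continuous fun t : GG p × GG p => t.1.x + t.2.x :=
      (cont_x.comp continuous_fst).add (cont_x.comp continuous_snd)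
    have h2 : Continuous fun t : GG p × GG p => (p : ℚ_[p]) ^ t.1.k :=
      (continuous_of_discreteTopology (f := fun k : ℤ => (p : ℚ_[p]) ^ k)).comp
        (cont_k.comp continuous_fst)
    have h3 : Continuous fun t : GG p × GG p => t.1.b + (p : ℚ_[p]) ^ t.1.k * t.2.b :=
      (cont_b.comp continuous_fst).add (h2.mul (cont_b.comp continuous_snd))
    have h4 : Continuous fun t : GG p × GG p => t.1.k + t.2.k :=
      (cont_k.comp continuous_fst).add (cont_k.comp continuous_snd)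
    exact cont_mk h1 h3 h4
  continuous_inv := by
    have h2 : Continuous fun t : GG p => (p : ℚ_[p]) ^ (-t.k) :=
      (continuous_of_discreteTopology (f := fun k : ℤ => (p : ℚ_[p]) ^ (-k))).comp cont_k
    exact cont_mk cont_x.neg (h2.mul cont_b).neg cont_k.neg

instance : T2Space (GG p) := GG.homeo.symm.t2Space

instance : LocallyCompactSpace (GG p) := GG.homeo.isClosedEmbedding.locallyCompactSpace

/-- the group is not totally disconnected -/
theorem not_td : ¬ TotallyDisconnectedSpace (GG p) := by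
  intro h
  have h1 : IsPreconnected (range fun x : ℝ => (⟨x, 0, 0⟩ : GG p)) :=
    isPreconnected_range (cont_mk continuous_id continuous_const continuous_const)
  have h2 := h.isTotallyDisconnected_univ _ (subset_univ _) h1 ⟨0, rfl⟩ ⟨1, rfl⟩
  have h3 := congrArg GG.x h2
  norm_num at h3

/-- a compact neighbourhood of `1` -/
def WW (p : ℕ) [Fact p.Prime] : Set (GG p) := {g | |g.x| ≤ 1 ∧ ‖g.b‖ ≤ 1 ∧ g.k = 0}

lemma WW_eq : WW p = GG.homeo ⁻¹' (Metric.closedBall (0 : ℝ) 1 ×ˢ
    (Metric.closedBall (0 : ℚ_[p]) 1 ×ˢ ({0} : Set ℤ))) := by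
  ext g
  simp only [WW, mem_ofPred_eq, mem_preimage, mem_prod, mem_closedBall_zero_iff,
    mem_singleton_iff, Real.norm_eq_abs]
  exact Iff.rfl

lemma WW_compact : IsCompact (WW p) := by
  rw [WW_eq]
  refine GG.homeo.isCompact_preimage.2 ?_
  exact (isCompact_closedBall _ _).prod ((isCompact_closedBall _ _).prod isCompact_singleton)

lemma WW_nhds : WW p ∈ 𝓝 (1 : GG p) := by
  rw [WW_eq]
  refine GG.homeo.continuous.continuousAt.preimage_mem_nhds ?_
  have e : (GG.homeo (1 : GG p)) = ((0 : ℝ), (0 : ℚ_[p]), (0 : ℤ)) := rfl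
  rw [e]
  refine prod_mem_nhds (Metric.closedBall_mem_nhds _ one_pos)
    (prod_mem_nhds (Metric.closedBall_mem_nhds _ one_pos) ?_)
  exact (isOpen_discrete _).mem_nhds rfl

lemma pow_x (g : GG p) (n : ℕ) : (g ^ n).x = n * g.x := by
  induction n with
  | zero => simp
  | succ n ih =>
    rw [pow_succ, mul_x, ih]
    push_cast
    ring

/-- no small normal subgroups -/
theorem WW_small (N : Subgroup (GG p)) (hN : N.Normal) (hW : (N : Set (GG p)) ⊆ WW p) : N = ⊥ := by
  rw [eq_bot_iff]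
  intro g hg
  rw [Subgroup.mem_bot]
  obtain ⟨-, -, hk⟩ := hW hg
  have hx : g.x = 0 := by
    by_contra hne
    have hpos : 0 < |g.x| := abs_pos.2 hne
    obtain ⟨n, hn⟩ := exists_nat_gt (1 / |g.x|)
    have h1 := (hW (N.pow_mem hg n)).1
    rw [pow_x, abs_mul, Nat.abs_cast] at h1
    rw [div_lt_iff₀ hpos] at hn
    linarith
  have hb : g.b = 0 := by
    by_contra hne
    have hpos : 0 < ‖g.b‖ := norm_pos_iff.2 hne
    have hp1 : (1 : ℝ) < p := by exact_mod_cast hp.out.one_lt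
    obtain ⟨n, hn⟩ := pow_unbounded_of_one_lt (1 / ‖g.b‖) hp1
    have h1 := (hW (hN.conj_mem g hg (⟨0, 0, -(n : ℤ)⟩ : GG p))).2.1
    have h2 : ((⟨0, 0, -(n : ℤ)⟩ : GG p) * g * (⟨0, 0, -(n : ℤ)⟩ : GG p)⁻¹).b =
        (p : ℚ_[p]) ^ (-(n : ℤ)) * g.b := by
      simp
    rw [h2, norm_mul, Padic.norm_p_zpow] at h1
    rw [neg_neg, zpow_natCast] at h1
    rw [div_lt_iff₀ hpos] at hn
    linarith
  ext
  · exact hx
  · exact hb
  · exact hk

variable (p) in
/-- the copy of `ℤ_p` -/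
def AA : Subgroup (GG p) where
  carrier := {g | g.x = 0 ∧ ‖g.b‖ ≤ 1 ∧ g.k = 0}
  one_mem' := ⟨rfl, by simp, rfl⟩
  mul_mem' := by
    rintro g h ⟨h1, h2, h3⟩ ⟨h4, h5, h6⟩
    refine ⟨by simp [h1, h4], ?_, by simp [h3, h6]⟩
    rw [mul_b, h3, zpow_zero, one_mul]
    exact (Padic.nonarchimedean _ _).trans (max_le h2 h5)
  inv_mem' := by
    rintro g ⟨h1, h2, h3⟩
    refine ⟨by simp [h1], ?_, by simp [h3]⟩
    rw [inv_b, h3, neg_zero, zpow_zero, one_mul, norm_neg]
    exact h2

lemma mem_AA {g : GG p} : g ∈ AA p ↔ g.x = 0 ∧ ‖g.b‖ ≤ 1 ∧ g.k = 0 := Iff.rfl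

lemma AA_closed : IsClosed (AA p : Set (GG p)) := by
  have h : (AA p : Set (GG p)) = {g | g.x = 0} ∩ ({g | ‖g.b‖ ≤ 1} ∩ {g | g.k = 0}) := by
    ext g
    exact mem_AA
  rw [h]
  exact (isClosed_eq cont_x continuous_const).inter
    ((isClosed_le cont_b.norm continuous_const).inter (isClosed_eq cont_k continuous_const))

lemma AA_comm (a b : GG p) (ha : a ∈ AA p) (hb : b ∈ AA p) : a * b = b * a := by
  obtain ⟨-, -, h3⟩ := ha
  obtain ⟨-, -, h6⟩ := hb
  ext
  · simp [add_comm]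
  · simp [h3, h6, add_comm]
  · simp [add_comm]

/-- the isomorphism with `ℤ_p` -/
def AAiso : AA p ≃ₜ* Multiplicative ℤ_[p] where
  toFun g := Multiplicative.ofAdd ⟨(g : GG p).b, g.2.2.1⟩
  invFun z := ⟨⟨0, (Multiplicative.toAdd z : ℤ_[p]), 0⟩, rfl, (Multiplicative.toAdd z : ℤ_[p]).2, rfl⟩
  left_inv := by
    rintro ⟨g, h1, h2, h3⟩
    apply Subtype.ext
    ext
    · exact h1.symm
    · rfl
    · exact h3.symm
  right_inv := fun z => rfl
  map_mul' := by
    rintro ⟨g, h1, h2, h3⟩ ⟨h, h4, h5, h6⟩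
    apply Multiplicative.toAdd.injective
    apply Subtype.ext
    change g.b + (p : ℚ_[p]) ^ g.k * h.b = g.b + h.b
    rw [h3, zpow_zero, one_mul]
  continuous_toFun := by
    have h1 : Continuous fun g : AA p => (⟨(g : GG p).b, g.2.2.1⟩ : ℤ_[p]) :=
      (cont_b.comp continuous_subtype_val).subtype_mk _
    exact continuous_ofAdd.comp h1
  continuous_invFun := by
    refine Continuous.subtype_mk (cont_mk continuous_const ?_ continuous_const) _
    exact continuous_subtype_val.comp continuous_toAdd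

end ex

end Pool.Agent.Q31.MG
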